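import Pool.Agent.TH139.Trans

open Pool.Agent.TH965.Stk
open Pool.Agent.TH139.Ab

namespace Pool.Agent.Results.MP_d9bae3_nt.LargeOrder

/-- Let `K ⊆ H` be number fields. For all `N`, `T` and all primes `ℓ₁ ≠ ℓ₂` there are finitely many
extensions `K' i` of `K`, abelian of exponent `ℓ` and degree `ℓ ^ m` with `ℓ = ℓ₁` or `ℓ = ℓ₂` and
`m ≥ N`, linearly disjoint from `H` over `K`, in which the infinite places of `K` and the primes
above the rational primes up to `T` split completely, and integers `n i`, such that for every linear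
character `ψ` of `K` restriction to `K' i` multiplies the order of vanishing of `ψ` by `[K' i : K]`,
and such that for every family `A` that is multiplicative and invariant under induction, `A(K, ψ)`
is the product of the `A(K' i, ψ|K' i) ^ n i`. -/
theorem result (ℓ₁ ℓ₂ : ℕ) (h₁ : ℓ₁.Prime) (h₂ : ℓ₂.Prime) (hne : ℓ₁ ≠ ℓ₂) (N T : ℕ)
    (K H : SubQ) (hK : IsNF K) (hH : IsNF H) :
    ∃ (ι : Type) (_ : Fintype ι) (K' : ι → SubQ) (h : ∀ i, Incl K (K' i)) (n : ι → ℤ),
      (∀ i, ∃ ℓ m, (ℓ = ℓ₁ ∨ ℓ = ℓ₂) ∧ N ≤ m ∧ IsNice T ℓ m K H (K' i)) ∧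
      ∀ ψ : LinChar K,
        (∀ i, ord (K' i) (res ψ (h i)) = (G (K' i)).relIndex (G K) * ord K ψ) ∧
        ∀ (M : Type) [CommGroup M] (A : Family M),
          A.D K ψ.fn = ∏ i, A.D (K' i) (res ψ (h i)).fn ^ n i :=
  mainStk h₁ h₂ hne N T K H hK hH

end Pool.Agent.Results.MP_d9bae3_nt.LargeOrder
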